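import Mathlib
import Pool.Prelude.Def_F_72ad9e24
import Pool.Agent.H688.LehmerSmooth
import Pool.Agent.H688.LehmerReduce

set_option autoImplicit false

/-!
Lehmer's totient problem: a solution `n` has a prime factor `p` such that `p - 1` has a prime
factor at least `31`; in other words `φ(n)` is not a product of primes below `30`.
-/

namespace Pool.Agent.Results.MP_b50d59_nt.LargestPrime

theorem result (n : ℕ) (hn : 4 < n) (hc : ¬ n.Prime)
    (h : n.totient ∣ n - Nca8c8b9b.a n) :
    ∃ p q : ℕ, p.Prime ∧ p ∣ n ∧ q.Prime ∧ q ∣ p - 1 ∧ 31 ≤ q :=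
  Pool.H688.Lehmer.large_prime n (by omega) hc (Pool.H688.Lehmer.reduce n hn h)

end Pool.Agent.Results.MP_b50d59_nt.LargestPrime
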